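import Pool.Agent.H948Q.Uniform

set_option autoImplicit false

/-!
# Circumscribed quadrilaterals of plane convex sets: the constant `√2` can be lowered

There is a constant `c < √2` such that every plane convex set of area `1` is contained in a convex
quadrilateral (the convex hull of four points) of area at most `c`.
-/

namespace Pool.Agent.Results.MP_b29168_gt.SqrtTwoNotOptimal

open MeasureTheory

/-- There is `c < √2` such that every convex set of area `1` in the plane lies in the convex hull of
four points whose area is at most `c`. -/
theorem result : ∃ c : ℝ, c < √2 ∧ ∀ K : Set (ℝ × ℝ), Convex ℝ K → volume K = 1 →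
    ∃ p q r s : ℝ × ℝ, K ⊆ convexHull ℝ {p, q, r, s} ∧
      volume (convexHull ℝ {p, q, r, s}) ≤ ENNReal.ofReal c :=
  Pool.Agent.H948Q.uniform

end Pool.Agent.Results.MP_b29168_gt.SqrtTwoNotOptimal
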